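import Pool.Agent.Helper15.T4.Stmts

/-!
# Bounds for the absolute Gaussian moments of a peaked polynomial
-/

set_option autoImplicit false

open Finset MeasureTheory Filter Topology

namespace Pool.Agent.Helper40.T4

open Pool.Agent.Helper15.T4

section

variable {ι : Type} [Fintype ι]

theorem nsq_nonneg (x : ι → ℝ) : 0 ≤ nsq x := by
  unfold nsq
  exact Finset.sum_nonneg fun i _ => sq_nonneg _

theorem nsq_smul (s : ℝ) (x : ι → ℝ) : nsq (s • x) = s ^ 2 * nsq x := by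
  unfold nsq
  rw [Finset.mul_sum]
  refine Finset.sum_congr rfl fun i _ => ?_
  rw [Pi.smul_apply, smul_eq_mul, mul_pow]

theorem continuous_nsq : Continuous (nsq : (ι → ℝ) → ℝ) := by
  unfold nsq
  fun_prop

theorem integrable_gauss : Integrable (fun x : ι → ℝ => Real.exp (-(1 / 2) * nsq x)) := by
  have h : Integrable (fun x : ι → ℝ => ∏ i, Real.exp (-(1 / 2) * (x i) ^ 2)) := by
    refine Integrable.fintype_prod (f := fun _ : ι => fun y : ℝ => Real.exp (-(1 / 2) * y ^ 2)) ?_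
    intro i
    exact integrable_exp_neg_mul_sq (by norm_num)
  refine h.congr (Eventually.of_forall fun x => ?_)
  simp only
  rw [← Real.exp_sum, ← Finset.mul_sum]
  rfl

theorem norm_P_le {P : (ι → ℝ) → ℂ} {u : ι → ℝ} {q : ℝ} {Q : (ι → ℝ) → ℂ} (h : Peak P u q Q)
    (x : ι → ℝ) : ‖P x‖ ≤ q * Real.sqrt (nsq x) ^ 3 := by
  have h1 := h.le x
  have h2 : (q * Real.sqrt (nsq x) ^ 3) ^ 2 = q ^ 2 * nsq x ^ 3 := by
    rw [mul_pow, ← pow_mul, mul_comm 3 2, pow_mul, Real.sq_sqrt (nsq_nonneg x)]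
  rw [← h2] at h1
  exact le_of_sq_le_sq h1 (mul_nonneg h.q0.le (by positivity))

/-- the integrand -/
noncomputable def FF (P : (ι → ℝ) → ℂ) (y : ι → ℝ) : ℝ := ‖P y‖ * Real.exp (-(3 / 2) * nsq y)

theorem FF_nonneg (P : (ι → ℝ) → ℂ) (y : ι → ℝ) : 0 ≤ FF P y := by
  unfold FF; positivity

theorem FF_le {P : (ι → ℝ) → ℂ} {u : ι → ℝ} {q : ℝ} {Q : (ι → ℝ) → ℂ} (h : Peak P u q Q)
    (x : ι → ℝ) : FF P x ≤ 6 * q * Real.exp (1 / 4) * Real.exp (-(1 / 2) * nsq x) := by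
  unfold FF
  have hs : 0 ≤ Real.sqrt (nsq x) := Real.sqrt_nonneg _
  have h3 : Real.sqrt (nsq x) ^ 3 ≤ 6 * Real.exp (Real.sqrt (nsq x)) := by
    have := Real.pow_div_factorial_le_exp _ hs 3
    have h6 : ((Nat.factorial 3 : ℕ) : ℝ) = 6 := by norm_num [Nat.factorial]
    rw [h6] at this
    linarith [(div_le_iff₀ (by norm_num : (0 : ℝ) < 6)).1 this]
  calc ‖P x‖ * Real.exp (-(3 / 2) * nsq x)
      ≤ (q * (6 * Real.exp (Real.sqrt (nsq x)))) * Real.exp (-(3 / 2) * nsq x) := by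
        refine mul_le_mul_of_nonneg_right ((norm_P_le h x).trans ?_) (Real.exp_pos _).le
        exact mul_le_mul_of_nonneg_left h3 h.q0.le
    _ = 6 * q * Real.exp (Real.sqrt (nsq x) + -(3 / 2) * nsq x) := by
        rw [Real.exp_add]; ring
    _ ≤ 6 * q * Real.exp (1 / 4 + -(1 / 2) * nsq x) := by
        have hq := h.q0
        gcongr 6 * q * Real.exp ?_
        have hsq : nsq x = Real.sqrt (nsq x) ^ 2 := (Real.sq_sqrt (nsq_nonneg x)).symm
        nlinarith [sq_nonneg (Real.sqrt (nsq x) - 1 / 2)]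
    _ = _ := by rw [Real.exp_add]; ring

theorem FF_cont {P : (ι → ℝ) → ℂ} (h : Continuous P) : Continuous (FF P) := by
  unfold FF
  have := continuous_nsq (ι := ι)
  fun_prop

theorem FF_int {P : (ι → ℝ) → ℂ} {u : ι → ℝ} {q : ℝ} {Q : (ι → ℝ) → ℂ} (h : Peak P u q Q) (k : ℕ)
    (hk : 1 ≤ k) : Integrable (fun y => FF P y ^ k) := by
  have hq := h.q0
  refine Integrable.mono' (integrable_gauss.const_mul ((6 * q * Real.exp (1 / 4)) ^ k))
    ((FF_cont h.cont).pow k).aestronglyMeasurable (Eventually.of_forall fun x => ?_)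
  rw [Real.norm_of_nonneg (pow_nonneg (FF_nonneg P x) k)]
  refine (pow_le_pow_left₀ (FF_nonneg P x) (FF_le h x) k).trans ?_
  rw [mul_pow]
  gcongr
  refine pow_le_of_le_one (Real.exp_pos _).le ?_ (by omega)
  rw [Real.exp_le_one_iff]
  have := nsq_nonneg x
  linarith

theorem factor_le (v f : ℕ) (hvf : 2 * f ≤ 3 * v) (s : ℝ) (hs : 0 ≤ s) :
    s ^ (3 * v - 2 * f) * Real.exp (-(3 / 2) * (v * s ^ 2)) ≤
      ((3 * v - 2 * f).factorial : ℝ) * Real.exp 1 := by
  rcases Nat.eq_zero_or_pos v with rfl | hv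
  · have : f = 0 := by omega
    subst this
    simp
  · have h1 := Real.pow_div_factorial_le_exp s hs (3 * v - 2 * f)
    have hpos : (0 : ℝ) < ((3 * v - 2 * f).factorial : ℝ) := by positivity
    have h2 : s ^ (3 * v - 2 * f) ≤ ((3 * v - 2 * f).factorial : ℝ) * Real.exp s := by
      have := (div_le_iff₀ hpos).1 h1
      linarith
    have hv1 : (1 : ℝ) ≤ v := by exact_mod_cast hv
    calc s ^ (3 * v - 2 * f) * Real.exp (-(3 / 2) * (v * s ^ 2))
        ≤ (((3 * v - 2 * f).factorial : ℝ) * Real.exp s) * Real.exp (-(3 / 2) * (v * s ^ 2)) := by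
          gcongr
      _ = ((3 * v - 2 * f).factorial : ℝ) * Real.exp (s + -(3 / 2) * (v * s ^ 2)) := by
          rw [Real.exp_add]; ring
      _ ≤ _ := by
          gcongr
          nlinarith [sq_nonneg (s - 1), sq_nonneg s]

end

theorem ASYB (hL : ST_LAPB) : ST_ASYB := by
  intro ι _ P u q Q hP v f hvf
  obtain ⟨C, hC⟩ := hL ι P u q Q hP v
  have hq := hP.q0
  have h2 : Tendsto (fun N : ℕ => 2 * N) atTop atTop :=
    tendsto_id.const_mul_atTop' (by norm_num)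
  have hC2 := h2.eventually hC
  set B : ℝ := ((3 * v - 2 * f).factorial : ℝ) * Real.exp 1 with hB
  have hB0 : 0 < B := by positivity
  refine ⟨(3 : ℝ) ^ ((Fintype.card ι : ℝ) / 2) * B * C, ?_⟩
  filter_upwards [hC2, eventually_ge_atTop (v + 1)] with N hN hNv
  have hNpos : 0 < N := by omega
  have hN0 : (0 : ℝ) < N := by exact_mod_cast hNpos
  have h6 : (0 : ℝ) < 6 * N := by positivity
  set R : ℝ := Real.sqrt (6 * N) with hR
  have hR0 : 0 < R := Real.sqrt_pos.2 h6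
  have hR2 : R ^ 2 = 6 * N := Real.sq_sqrt h6.le
  -- substitution
  have hsub : ∫ x : ι → ℝ, ‖P x‖ ^ (2 * N - v) * Real.sqrt (nsq x) ^ (3 * v - 2 * f) *
      Real.exp (-(nsq x) / 2) = R ^ (Fintype.card ι) * ∫ y : ι → ℝ,
        ‖P (R • y)‖ ^ (2 * N - v) * Real.sqrt (nsq (R • y)) ^ (3 * v - 2 * f) *
      Real.exp (-(nsq (R • y)) / 2) := by
    have := Measure.integral_comp_smul (μ := (volume : Measure (ι → ℝ))) (fun x : ι → ℝ =>
      ‖P x‖ ^ (2 * N - v) * Real.sqrt (nsq x) ^ (3 * v - 2 * f) * Real.exp (-(nsq x) / 2)) R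
    rw [this, Module.finrank_fintype_fun_eq_card, smul_eq_mul, abs_of_pos (by positivity),
      ← mul_assoc, mul_inv_cancel₀ (by positivity), one_mul]
  have hpt : ∀ y : ι → ℝ, ‖P (R • y)‖ ^ (2 * N - v) * Real.sqrt (nsq (R • y)) ^ (3 * v - 2 * f) *
      Real.exp (-(nsq (R • y)) / 2) ≤ (6 * N : ℝ) ^ (3 * N - f) * B * FF P y ^ (2 * N - v) := by
    intro y
    have e1 : ‖P (R • y)‖ = R ^ 3 * ‖P y‖ := by
      rw [hP.hom, norm_mul, norm_pow, Complex.norm_real, Real.norm_of_nonneg hR0.le]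
    have e2 : Real.sqrt (nsq (R • y)) = R * Real.sqrt (nsq y) := by
      rw [nsq_smul, Real.sqrt_mul (sq_nonneg R), Real.sqrt_sq hR0.le]
    have e3 : Real.exp (-(nsq (R • y)) / 2) =
        Real.exp (-(3 / 2) * nsq y) ^ (2 * N - v) *
          Real.exp (-(3 / 2) * (v * Real.sqrt (nsq y) ^ 2)) := by
      rw [nsq_smul, hR2, ← Real.exp_nat_mul, ← Real.exp_add, Real.sq_sqrt (nsq_nonneg y)]
      congr 1
      rw [Nat.cast_sub (by omega)]
      push_cast
      ring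
    have e4 : R ^ (3 * (2 * N - v)) * R ^ (3 * v - 2 * f) = (6 * N : ℝ) ^ (3 * N - f) := by
      rw [← hR2, ← pow_add, ← pow_mul]
      congr 1
      omega
    have hfac := factor_le v f hvf (Real.sqrt (nsq y)) (Real.sqrt_nonneg _)
    calc ‖P (R • y)‖ ^ (2 * N - v) * Real.sqrt (nsq (R • y)) ^ (3 * v - 2 * f) *
          Real.exp (-(nsq (R • y)) / 2)
        = (R ^ (3 * (2 * N - v)) * R ^ (3 * v - 2 * f)) * FF P y ^ (2 * N - v) *
          (Real.sqrt (nsq y) ^ (3 * v - 2 * f) *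
            Real.exp (-(3 / 2) * (v * Real.sqrt (nsq y) ^ 2))) := by
          rw [e1, e2, e3]
          unfold FF
          rw [mul_pow, mul_pow, mul_pow, pow_mul]
          ring
      _ ≤ (R ^ (3 * (2 * N - v)) * R ^ (3 * v - 2 * f)) * FF P y ^ (2 * N - v) * B := by
          have := FF_nonneg P y
          gcongr
      _ = _ := by rw [e4]; ring
  have hint := FF_int hP (2 * N - v) (by omega)
  have hmono : ∫ y : ι → ℝ, ‖P (R • y)‖ ^ (2 * N - v) * Real.sqrt (nsq (R • y)) ^ (3 * v - 2 * f) *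
      Real.exp (-(nsq (R • y)) / 2) ≤
      (6 * N : ℝ) ^ (3 * N - f) * B * ∫ y : ι → ℝ, FF P y ^ (2 * N - v) := by
    rw [← integral_const_mul]
    refine integral_mono_of_nonneg (Eventually.of_forall fun y => by positivity)
      (hint.const_mul _) (Eventually.of_forall hpt)
  have hI0 : 0 ≤ ∫ y : ι → ℝ, FF P y ^ (2 * N - v) :=
    integral_nonneg fun y => pow_nonneg (FF_nonneg P y) _
  have hqe : 0 < q * Real.exp (-(3 / 2)) := by positivity
  have hI : ∫ y : ι → ℝ, FF P y ^ (2 * N - v) ≤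
      C * (q * Real.exp (-(3 / 2))) ^ (2 * N) / ((2 * N : ℝ) ^ ((Fintype.card ι : ℝ) / 2)) := by
    have h1 : (((2 * N : ℕ) : ℝ)) ^ ((Fintype.card ι : ℝ) / 2) /
        (q * Real.exp (-(3 / 2))) ^ (2 * N) * ∫ y : ι → ℝ, FF P y ^ (2 * N - v) ≤ C := hN
    have hd : (0 : ℝ) < (2 * N : ℝ) ^ ((Fintype.card ι : ℝ) / 2) := by positivity
    rw [le_div_iff₀ hd]
    have hcast : (((2 * N : ℕ) : ℝ)) = (2 * N : ℝ) := by push_cast; ring
    rw [hcast, div_mul_eq_mul_div, div_le_iff₀ (by positivity)] at h1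
    linarith
  have hRD : R ^ (Fintype.card ι) = (6 * N : ℝ) ^ ((Fintype.card ι : ℝ) / 2) := by
    rw [← Real.rpow_natCast, hR, Real.sqrt_eq_rpow, ← Real.rpow_mul h6.le]
    congr 1
    ring
  have h63 : (6 * N : ℝ) ^ ((Fintype.card ι : ℝ) / 2) =
      (3 : ℝ) ^ ((Fintype.card ι : ℝ) / 2) * (2 * N : ℝ) ^ ((Fintype.card ι : ℝ) / 2) := by
    rw [← Real.mul_rpow (by norm_num) (by positivity)]
    congr 1
    ring
  have hd : (0 : ℝ) < (2 * N : ℝ) ^ ((Fintype.card ι : ℝ) / 2) := by positivity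
  rw [hsub]
  calc R ^ (Fintype.card ι) * (∫ y : ι → ℝ, ‖P (R • y)‖ ^ (2 * N - v) *
        Real.sqrt (nsq (R • y)) ^ (3 * v - 2 * f) * Real.exp (-(nsq (R • y)) / 2)) *
        (6 * (N : ℝ)) ^ f
      ≤ R ^ (Fintype.card ι) * ((6 * N : ℝ) ^ (3 * N - f) * B *
        (C * (q * Real.exp (-(3 / 2))) ^ (2 * N) / ((2 * N : ℝ) ^ ((Fintype.card ι : ℝ) / 2)))) *
        (6 * (N : ℝ)) ^ f := by
        gcongr
        exact hmono.trans (by gcongr)
    _ = _ := by
        rw [hRD, h63]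
        unfold NF
        have e5 : (6 * N : ℝ) ^ (3 * N - f) * (6 * N : ℝ) ^ f = (6 * N : ℝ) ^ (3 * N) := by
          rw [← pow_add]
          congr 1
          omega
        have e6 : (q * Real.exp (-(3 / 2))) ^ (2 * N) = (q ^ 2 * Real.exp (-3)) ^ N := by
          rw [pow_mul, mul_pow, ← Real.exp_nat_mul]
          congr 3
          norm_num
        rw [e6, ← e5]
        field_simp

end Pool.Agent.Helper40.T4
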